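import Pool.Agent.Y228.HX.Stm

/-!
Generic points near a given point.
-/

set_option autoImplicit false

namespace Pool.Agent.Y50.HX

open Pool.Agent.Y228.HX

variable {W : Type} [AddCommGroup W] [Module ℚ W] {p : ℕ}

theorem pr_add_smul (s : Smp W p) (x y : W) (c : ℚ) :
    s.pr (x + c • y) = s.pr x + c • s.pr y := by
  simp only [Smp.pr, map_add, map_smul, add_smul, Finset.sum_add_distrib, Finset.smul_sum,
    smul_smul, smul_eq_mul]

/-- the bad parameters -/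
theorem bad_finite (F : List (W →ₗ[ℚ] ℚ)) (a b : W) (h : ∀ f ∈ F, f a ≠ 0 ∨ f b ≠ 0) :
    {c : ℚ | ∃ f ∈ F, f (a + c • b) = 0}.Finite := by
  refine (List.finite_toSet (F.map fun f => -f a / f b)).subset ?_
  rintro c ⟨f, hf, h0⟩
  rw [Set.mem_ofPred_eq, List.mem_map]
  refine ⟨f, hf, ?_⟩
  rw [map_add, map_smul, smul_eq_mul] at h0
  have hb : f b ≠ 0 := by
    intro hb
    rw [hb, mul_zero, add_zero] at h0
    rcases h f hf with h1 | h1
    · exact h1 h0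
    · exact h1 hb
  rw [div_eq_iff hb]
  linear_combination -h0

theorem exists_good (F : List (W →ₗ[ℚ] ℚ)) (a b : W) (h : ∀ f ∈ F, f a ≠ 0 ∨ f b ≠ 0) (c0 : ℚ)
    (hc0 : 0 < c0) : ∃ c : ℚ, 0 < c ∧ c < c0 ∧ ∀ f ∈ F, f (a + c • b) ≠ 0 := by
  obtain ⟨c, hc, hc'⟩ := (Set.Ioo_infinite hc0).exists_notMem_finite (bad_finite F a b h)
  exact ⟨c, hc.1, hc.2, fun f hf h0 => hc' ⟨f, hf, h0⟩⟩

theorem exists_zeta (s : Smp W p) (F : List (W →ₗ[ℚ] ℚ))
    (h : ∀ f ∈ F, ∃ x, s.pr x = x ∧ f x ≠ 0) : ∃ ζ : W, s.pr ζ = ζ ∧ ∀ f ∈ F, f ζ ≠ 0 := by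
  induction F with
  | nil =>
    refine ⟨0, ?_, fun f hf => absurd hf List.not_mem_nil⟩
    simp [Smp.pr]
  | cons f F ih =>
    obtain ⟨ζ, hζ, hζF⟩ := ih fun g hg => h g (List.mem_cons_of_mem _ hg)
    obtain ⟨x, hx, hfx⟩ := h f List.mem_cons_self
    obtain ⟨c, -, -, hc⟩ := exists_good (f :: F) ζ x (by
      intro g hg
      rcases List.mem_cons.1 hg with rfl | hg
      · exact Or.inr hfx
      · exact Or.inl (hζF g hg)) 1 one_pos
    refine ⟨ζ + c • x, ?_, hc⟩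
    rw [pr_add_smul, hζ, hx]

theorem exists_small (L : List (W →ₗ[ℚ] ℚ)) (a b : W) :
    ∃ c0 : ℚ, 0 < c0 ∧ ∀ c : ℚ, 0 < c → c < c0 → ∀ l ∈ L,
      (0 < l a → 0 < l (a + c • b)) ∧ (l a < 0 → l (a + c • b) < 0) := by
  induction L with
  | nil => exact ⟨1, one_pos, fun c _ _ l hl => absurd hl List.not_mem_nil⟩
  | cons f L ih =>
    obtain ⟨c1, hc1, h1⟩ := ih
    have key : ∃ c2 : ℚ, 0 < c2 ∧ ∀ c : ℚ, 0 < c → c < c2 →
        (0 < f a → 0 < f (a + c • b)) ∧ (f a < 0 → f (a + c • b) < 0) := by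
      by_cases hfa : f a = 0
      · refine ⟨1, one_pos, fun c _ _ => ?_⟩
        rw [hfa]
        exact ⟨fun h => absurd h (lt_irrefl _), fun h => absurd h (lt_irrefl _)⟩
      · have hpos : 0 < |f b| + 1 := by positivity
        refine ⟨|f a| / (|f b| + 1), div_pos (abs_pos.2 hfa) hpos, fun c hc hc2 => ?_⟩
        rw [lt_div_iff₀ hpos] at hc2
        have h3 : |c * f b| < |f a| := by
          rw [abs_mul, abs_of_pos hc]
          nlinarith
        rw [map_add, map_smul, smul_eq_mul]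
        have h4 := abs_lt.1 h3
        constructor
        · intro h
          rw [abs_of_pos h] at h4
          linarith [h4.1]
        · intro h
          rw [abs_of_neg h] at h4
          linarith [h4.2]
    obtain ⟨c2, hc2, h2⟩ := key
    refine ⟨min c1 c2, lt_min hc1 hc2, fun c hc hcm l hl => ?_⟩
    rcases List.mem_cons.1 hl with rfl | hl
    · exact h2 c hc (hcm.trans_le (min_le_right _ _))
    · exact h1 c hc (hcm.trans_le (min_le_left _ _)) l hl

theorem t_GENX : S_GENX := by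
  intro W _ _ p s F L hF ξ0 h0
  obtain ⟨ζ, hζ, hζF⟩ := exists_zeta s F hF
  obtain ⟨c0, hc0, hL⟩ := exists_small L ξ0 ζ
  obtain ⟨c, hc, hcc, hcF⟩ := exists_good F ξ0 ζ (fun f hf => Or.inr (hζF f hf)) c0 hc0
  refine ⟨ξ0 + c • ζ, ?_, hcF, hL c hc hcc⟩
  rw [pr_add_smul, h0, hζ]

end Pool.Agent.Y50.HX
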